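import Mathlib
import Pool.Agent.TH87.BD.Main

/-!
# MP_5f065d_co (S09049): interface

The union of a forest and a forest with components of bounded diameter splits into two forests
whose components have bounded diameter. Statements of the pieces; every piece has its complete
proof in its doc string.
-/

set_option autoImplicit false

namespace Pool.Agent.Run7.h680.BD

open SimpleGraph

/-- The edges of `B` between vertices of rank at least `k`. -/
def Bge {V : Type} (B : SimpleGraph V) (ρ : V → ℕ) (k : ℕ) : SimpleGraph V where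
  Adj x y := B.Adj x y ∧ k ≤ ρ x ∧ k ≤ ρ y
  symm := ⟨fun _ _ h => ⟨h.1.symm, h.2.2, h.2.1⟩⟩
  loopless := ⟨fun _ h => h.1.ne rfl⟩

/-- The edges of `B` outside of `W`. -/
def Bout {V : Type} (B : SimpleGraph V) (W : Set V) : SimpleGraph V where
  Adj x y := B.Adj x y ∧ x ∉ W ∧ y ∉ W
  symm := ⟨fun _ _ h => ⟨h.1.symm, h.2.2, h.2.1⟩⟩
  loopless := ⟨fun _ h => h.1.ne rfl⟩

/-- The component of `c` in `B` without `W`. -/
def comp {V : Type} (B : SimpleGraph V) (W : Set V) (c : V) : Set V :=
  {x | (Bout B W).Reachable c x}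

open Classical in
/-- A partial function restricted to a set (values outside of the set are dropped). -/
noncomputable def res {V : Type} (C : Set V) (p : V → Option V) : C → Option C :=
  fun z => (p z).bind fun y => if h : y ∈ C then some ⟨y, h⟩ else none

/-- `(B', p')` is an exchange of `(B, p)` with the same edges, and `ρ` is a ranking of it:
two vertices of the same rank `k`, and the two ends `x → p' x` of a `p'`-edge with `ρ x = k`,
are not joined in `B'` through vertices of rank at least `k`. -/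
structure Ok {V : Type} (B B' : SimpleGraph V) (p p' : V → Option V) (ρ : V → ℕ) (N : ℕ) :
    Prop where
  acyc : B'.IsAcyclic
  reach : ∀ x y, B'.Reachable x y ↔ B.Reachable x y
  none : ∀ x, p' x = none ↔ p x = none
  edge : ∀ x y, (B'.Adj x y ∨ p' x = some y ∨ p' y = some x) ↔
    (B.Adj x y ∨ p x = some y ∨ p y = some x)
  disj : ∀ x y, p' x = some y → ¬ B'.Adj x y
  two : ∀ x y, p' x = some y → p' y ≠ some x
  lt : ∀ x, ρ x < N
  r1 : ∀ x y, p' x = some y → ¬ (Bge B' ρ (ρ x)).Reachable x y
  r2 : ∀ x y, x ≠ y → ρ x = ρ y → ¬ (Bge B' ρ (ρ x)).Reachable x y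

/-- `(B, p)` has an exchange with a ranking with values below `N`. -/
def Con {V : Type} (B : SimpleGraph V) (p : V → Option V) (N : ℕ) : Prop :=
  ∃ (B' : SimpleGraph V) (p' : V → Option V) (ρ : V → ℕ), Ok B B' p p' ρ N

/-- **Piece LA** (linear algebra). If `∑ α_z ⊗ β_z` is injective, there is a set `Y` of indices
such that the `α_z`, `z ∈ Y`, separate the points of `E` and the `β_z`, `z ∈ Y`, are independent.

Proof. Let `Φ = ∑_z α_z(·) β_z : E → E'`, `Ψ` a left inverse, `β'_z = Ψ β_z`. Let `Y` be a set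
of smallest size for which `M = ∑_{z ∈ Y} α_z(·) β'_z : E → E` is injective (`univ` is one: `M = 1`).
Let `n = finrank E`. If `α_z c = 0` for all `z ∈ Y` then `M c = 0` and `c = 0`. Now
`n = trace (M⁻¹ M) = ∑_{z ∈ Y} α_z (M⁻¹ β'_z)`. If `|Y| > n` then some `z ∈ Y` has
`α_z (M⁻¹ β'_z) ≠ 1`, and `M - α_z(·) β'_z` is still injective (if `M c = α_z(c) β'_z` then
`c = α_z(c) M⁻¹ β'_z`, apply `α_z`: `α_z(c) = 0`, so `c = 0`), a contradiction. So `|Y| ≤ n`; as `M`
is onto, the `β'_z`, `z ∈ Y`, span `E`, so `|Y| = n` and they are independent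
(`linearIndependent_of_top_le_span_of_card_eq_finrank`), hence the `β_z` are. -/
def S_LA : Prop :=
  ∀ (U E E' : Type) [Fintype U] [AddCommGroup E] [Module ℚ E] [FiniteDimensional ℚ E]
    [AddCommGroup E'] [Module ℚ E'] (α : U → (E →ₗ[ℚ] ℚ)) (β : U → E'),
    (∀ c : E, ∑ z, α z c • β z = 0 → c = 0) →
    ∃ Y : Finset U, (∀ c : E, (∀ z ∈ Y, α z c = 0) → c = 0) ∧
      ∀ d : U → ℚ, (∀ z, z ∉ Y → d z = 0) → ∑ z, d z • β z = 0 → d = 0

/-- **Piece BFS**. A graph in which every vertex reaches the set `K`, with at most `|V \ K|` edges,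
is a forest rooted at `K`.

Proof. `lv z` is the smallest length of a walk from `z` to `K`. For `z ∉ K` the first step of
such a walk is a neighbour `p z` with `lv (p z) + 1 = lv z`. The map `z ↦ s(z, p z)` from
`V \ K` to the edges is injective (levels), so by the count it is onto. -/
def S_BFS : Prop :=
  ∀ (V : Type) [Fintype V] (H : SimpleGraph V) (K : Set V),
    (∀ z, ∃ k ∈ K, H.Reachable z k) → H.edgeSet.ncard ≤ Kᶜ.ncard →
    ∃ (p : V → Option V) (lv : V → ℕ),
      (∀ z, p z = none ↔ z ∈ K) ∧ (∀ z y, p z = some y → H.Adj z y ∧ lv z = lv y + 1) ∧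
      (∀ x y, H.Adj x y → p x = some y ∨ p y = some x) ∧
      (∀ z k, k ∈ K → ∀ w : H.Walk z k, lv z ≤ w.length)

/-- **Piece SEL** (selection of the exchange path).

Proof. Induction on the number of vertices reachable from `c`. If `c ∈ K`: `a = c`, `X = nil`; `g` is
constant along the edges, so `0`. Let `c ∉ K`. Then `r c ≠ c` is reachable from `c`. Let `H'` be `H`
without the edges at `c`. Take a path from `c` to `r c`, `c'` its second vertex; then `c'` is a
neighbour of `c` and `r c` is `H'`-reachable from `c'` (the tail of the path avoids `c`).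
Let `C'` be the set of vertices `H'`-reachable from `c'` (`c ∉ C'`, so it is smaller), and
`r' x = if H'.Reachable c' (r x) then r x else r c`. By induction there are `a ∈ K` and an
`H'`-path `X'` from `c'` to `a`; `X` is the edge `c c'` followed by `X'`. Let `g` be as in the
statement for `X`. Every vertex reachable from `c` and not in `C'` has a walk to `c` whose
vertices are not in `C'` (cut a path to `c`: before `c` it runs in `H'`), the edges of this walk
are not in `X` (the edges of `X` have an end in `C'`), so `g = g c` there. For `b` in the support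
of `X'`, `b ≠ a`: if `r b ∈ C'` then `g b = g (r b) = g (r' b)`; otherwise `g (r b) = g c = g (r c)`
(the hypothesis for `b = c`) `= g (r' b)`. So `g` satisfies the hypothesis for `X'`, `r'`, hence
`g = 0` on `C'`; `r c ∈ C'`, so `g c = g (r c) = 0` and `g = 0` everywhere. -/
def S_SEL : Prop :=
  ∀ (V : Type) [Fintype V] (H : SimpleGraph V) (K : Set V) (r : V → V) (c : V),
    (∀ x, H.Reachable c x → r x ∈ K ∧ H.Reachable c (r x)) →
    ∃ (a : V) (X : H.Walk c a), a ∈ K ∧ X.IsPath ∧ (∀ b ∈ X.support, b ≠ a → b ∉ K) ∧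
      ∀ g : V → ℚ, g a = 0 →
        (∀ x y, H.Adj x y → H.Reachable c x → s(x, y) ∉ X.edges → g x = g y) →
        (∀ b ∈ X.support, b ≠ a → g b = g (r b)) →
        ∀ x, H.Reachable c x → g x = 0

/-- **Piece PATH**. Paths in a graph covered by a forest of depth at most `j` and few edges are
short.

Proof. Let `ex w` be the number of edges of `w` in `Ex` (at most `|Ex|`, as the edges of a path are
distinct). Induction on the path `w` from `x`: (1) `w.length ≤ (2 j + 1) ex w + (j + lev x)` and
(2) if the first edge `x z` of `w` does not satisfy `p₃ x = some z` (or `w` is nil), then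
`w.length ≤ (2 j + 1) ex w + (j - lev x)`. For `w = cons (x z) w'`: if `s(x, z) ∈ Ex`, use (1) for
`w'` and `lev z ≤ j`: `w.length ≤ (2 j + 1) ex w`. If `p₃ x = some z`: (1) for `w'`, `lev z < lev x`.
If `p₃ z = some x`: `lev x < lev z`, and (2) applies to `w'` (its second vertex is not `x`, so it
is not `p₃ z`). -/
def S_PATH : Prop :=
  ∀ (V : Type) (B : SimpleGraph V) (p₃ : V → Option V) (lev : V → ℕ) (Ex : Finset (Sym2 V))
    (j : ℕ), (∀ x y, p₃ x = some y → lev y < lev x) → (∀ x, lev x ≤ j) →
    (∀ x y, B.Adj x y → p₃ x = some y ∨ p₃ y = some x ∨ s(x, y) ∈ Ex) →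
    ∀ (x y : V) (w : B.Walk x y), w.IsPath → w.length ≤ (2 * j + 1) * Ex.card + 2 * j

/-- **Piece CNT**. Proof: a connected graph has at least `|V| - 1` edges
(`SimpleGraph.Connected.card_vert_le_card_edgeSet_add_one`), and its edges inject into the disjoint
union of `{x | p₃ x ≠ none}` and `Ex`. -/
def S_CNT : Prop :=
  ∀ (V : Type) [Fintype V] (B : SimpleGraph V) (p₃ : V → Option V) (Ex : Finset (Sym2 V)),
    B.Preconnected →
    (∀ x y, B.Adj x y → p₃ x = some y ∨ p₃ y = some x ∨ s(x, y) ∈ Ex) →
    {x | p₃ x = none}.ncard ≤ Ex.card + 1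

/-- **Piece POT** (potentials from a ranking). `B` is rooted by `p₂` (levels `l₂`). `s z` is the
colour of the edge `z → p z`, the edge `z → p₂ z` gets the colour `!s z`, and every edge increases
in the potential `e c` of its own colour `c`.

Proof. One proves by induction on `m` the relative statement: for all `k` with `n ≤ k + m`, all
sets `P` of vertices with `∀ x ∈ P, k ≤ ρ x`, closed (`x ∈ P`, `B.Adj x y`, `k ≤ ρ y` imply
`y ∈ P`), and all `x : V → Bool`, there are `s : V → Bool`, `e : Bool → V → ℕ` with `e c z < 18 ^ m`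
and for all `z ∈ P`: `p z = some y → y ∉ P → s z = x z`;
`p z = some y → y ∈ P → e (s z) z < e (s z) y`; `p₂ z = some y → y ∈ P → e (!s z) z < e (!s z) y`.
For `m = 0`, `P = ∅`. Step `m → m + 1`: let `κ z` be the component of `z` in `Bge B ρ k`. By `r2`
every component has at most one vertex `w` with `ρ w = k`. By `Pool.Agent.TH87.BD.three` (three
colours for the graph of a function) there is `σ` on the components with
`σ (κ w) ≠ σ (κ y)` if `w ∈ P`, `ρ w = k`, `p w = some y`, `y ∈ P` (`κ w ≠ κ y` by `r1`). Let `cc w`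
be `true` if `σ (κ w) < σ (κ y)` and `false` if `σ (κ w) > σ (κ y)`, and `cc w = x w` if `y ∉ P`. A
vertex `z ∈ P`, `k < ρ z`, is of kind `D` if it is a descendant (for `p₂`) of the vertex
`w` of rank `k` in its component, and of kind `U` otherwise. With `β = 2 σ + [cc] < 6` the letter of
a vertex for the colour `c` is `3 β + sub` for `c = true` and `3 (5 - β) + sub` for `c = false`,
where `sub = 0, 1, 2` for `U, D, w` if `c = cc` and for `D, w, U` if `c ≠ cc`. The new sets are the
classes `P_τ = {z ∈ P | k < ρ z, (σ, cc, kind) = τ}`, with `k + 1`, and `x_τ z = x z` if `p z ∉ P`,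
and otherwise (`p z ∈ P \ P_τ`) a colour for which the letter of `z` is smaller than the letter of
`p z` (it exists). Put `s z = s_τ z` on `P_τ`, `s w = cc w`, and
`e c z = letter * 18 ^ m + e_τ c z` on `P_τ`, `e c w = letter * 18 ^ m`. -/
def S_POT : Prop :=
  ∀ (n : ℕ) (V : Type) [Fintype V] (B : SimpleGraph V) (p p₂ : V → Option V) (l₂ ρ : V → ℕ),
    (∀ x y, p₂ x = some y → B.Adj x y ∧ l₂ x = l₂ y + 1) →
    (∀ x y, B.Adj x y → p₂ x = some y ∨ p₂ y = some x) →
    (∀ x, ρ x < n) →
    (∀ x y, p x = some y → ¬ (Bge B ρ (ρ x)).Reachable x y) →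
    (∀ x y, x ≠ y → ρ x = ρ y → ¬ (Bge B ρ (ρ x)).Reachable x y) →
    ∃ (s : V → Bool) (e : Bool → V → ℕ), (∀ c z, e c z < 18 ^ n) ∧
      (∀ z y, p z = some y → e (s z) z < e (s z) y) ∧
      (∀ z y, p₂ z = some y → e (!s z) z < e (!s z) y)

/-- **Piece DEC** (the two forests from the potentials). Proof: as
`Pool.Agent.TH87.BD.repartition`, with `q₁ x = if s x then p x else p₂ x` and
`q₂ x = if s x then p₂ x else p x`, the potentials `e true`, `e false` (as maps to `Fin M`),
`acyclic_of_pot`, `dist_of_pot`, `H_i = SimpleGraph.fromRel fun x y => q_i x = some y`. -/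
def S_DEC : Prop :=
  ∀ (V : Type) [Fintype V] (B : SimpleGraph V) (p p₂ : V → Option V) (l₂ : V → ℕ)
    (s : V → Bool) (e : Bool → V → ℕ) (M : ℕ),
    (∀ x y, p₂ x = some y → B.Adj x y ∧ l₂ x = l₂ y + 1) →
    (∀ x y, B.Adj x y → p₂ x = some y ∨ p₂ y = some x) →
    (∀ x y, p x = some y → ¬ B.Adj x y) → (∀ x y, p x = some y → p y ≠ some x) →
    (∀ c z, e c z < M) →
    (∀ z y, p z = some y → e (s z) z < e (s z) y) →
    (∀ z y, p₂ z = some y → e (!s z) z < e (!s z) y) →
    ∃ H₁ H₂ : SimpleGraph V,
      (∀ x y, (H₁ ⊔ H₂).Adj x y ↔ (B.Adj x y ∨ p x = some y ∨ p y = some x)) ∧ Disjoint H₁ H₂ ∧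
      H₁.IsAcyclic ∧ H₂.IsAcyclic ∧
      (∀ u v : V, H₁.Reachable u v → H₁.dist u v ≤ 2 * M) ∧
      (∀ u v : V, H₂.Reachable u v → H₂.dist u v ≤ 2 * M)

/-- **Piece GLUE**. `W` has at most one vertex in every component of the forest `B`, and `p w` is
not in the component of `w` for `w ∈ W`. If every component of `B` without `W` has an exchange
with ranking below `N`, then `(B, p)` has one with ranking below `N + 1`.

Proof. Choose a representative `rep x` of every component of `Bout B W`; for `x ∉ W` let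
`C = comp B W (rep x)` and let `(B_C, p_C, ρ_C)` be the given exchange of `C`.
`B'' x y`: `x, y ∉ W` are in the same `C` and `B_C x y`, or `B x y` and (`x ∈ W` or `y ∈ W`).
`p'' z = p z` for `z ∈ W`; for `z ∉ W` it is `p_C z` if this is `some`, otherwise `p z` (in this case
`p z` is `none` or outside of `C`). `ρ = 0` on `W`, `ρ = ρ_C + 1` on `C`. Edges, `none`, `two`, `disj`
are checked case by case. `reach`: an edge of `B` (`B''`) inside of `C` is a walk of `B''` (`B`) in
`C`. `r1`, `r2`: for `k = 0` by the hypotheses on `W`; for `k ≥ 1` a walk in `Bge B'' ρ k` avoids `W`,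
so it stays in one `C` and is a walk in `Bge B_C ρ_C (k - 1)`. Acyclicity: every edge `e` of `B''` is
a bridge (`isAcyclic_iff_forall_adj_isBridge`, `isBridge_iff`). If `e = {w, y}`, `w ∈ W`: a walk from
`w` to `y` in `B''` without `e` gives one in `B` without `e`. If `e` is in `C`: at most one vertex
`z₀` of `C` is adjacent (in `B`) to a vertex outside of `C` (such a vertex is in `W`, there is only
one vertex `w` of `W` in this component of `B`, and two neighbours of `w` in `C` would give a
cycle of `B`). The map `φ` which is the identity on `C` and `z₀` outside of `C` sends a walk of `B''`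
without `e` between the ends of `e` to a walk of `B_C` without `e`, contradiction. -/
def S_GLUE : Prop :=
  ∀ (V : Type) [Fintype V] (B : SimpleGraph V) (p : V → Option V) (W : Set V) (N : ℕ),
    B.IsAcyclic → (∀ x y, p x = some y → p y ≠ some x) → (∀ x y, p x = some y → ¬ B.Adj x y) →
    (∀ w ∈ W, ∀ y, p w = some y → ¬ B.Reachable w y) →
    (∀ w ∈ W, ∀ w' ∈ W, B.Reachable w w' → w = w') →
    (∀ c, c ∉ W → Con (B.induce (comp B W c)) (res (comp B W c) p) N) →
    Con B p (N + 1)

/-- **Piece EXC** (exchange; uses LA, BFS, SEL). Helper680. -/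
def S_EXC : Prop :=
  ∀ (V : Type) [Fintype V] (B : SimpleGraph V) (p : V → Option V) (l : V → ℕ) (R : Set V) (t : V),
    B.Preconnected → B.IsAcyclic → (∀ x y, p x = some y → l y < l x) →
    (∀ x y, p x = some y → ¬ B.Adj x y) → (∀ x ∈ R, ∀ y, p x = some y → y ∈ R) →
    ∃ (B' : SimpleGraph V) (p' : V → Option V) (l' : V → ℕ) (R' : Set V) (EY : Finset (Sym2 V))
      (u : V) (X : B.Walk t u), X.IsPath ∧ B'.Preconnected ∧ B'.IsAcyclic ∧
      (∀ x y, p' x = some y → l' y < l' x) ∧ (∀ x, p' x = none ↔ p x = none) ∧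
      (∀ x y, (B'.Adj x y ∨ p' x = some y ∨ p' y = some x) ↔
        (B.Adj x y ∨ p x = some y ∨ p y = some x)) ∧
      (∀ x y, p' x = some y → ¬ B'.Adj x y) ∧
      (∀ x ∈ R', ∀ y, p' x = some y → y ∈ R') ∧ R ⊆ R' ∧ t ∈ R' ∧
      R'.ncard ≤ R.ncard + (X.length + 1) ∧
      (∀ x y, B'.Adj x y → B.Adj x y ∨ s(x, y) ∈ EY) ∧ EY.card ≤ X.length

end Pool.Agent.Run7.h680.BD
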