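import Mathlib
import Pool.Agent.Run7.h680.BD.Stm

/-!
# MP_5f065d_co (S09049): the exchange (piece EXC)
-/

set_option autoImplicit false

namespace Pool.Agent.Run7.h680.BD

open SimpleGraph

theorem rec_exists {V β : Type} (l : V → ℕ) (K : Set V) (pp : V → V)
    (h : ∀ x, x ∉ K → l (pp x) < l x) (base : V → β) (step : V → β → β) :
    ∃ F : V → β, (∀ x ∈ K, F x = base x) ∧ ∀ x, x ∉ K → F x = step x (F (pp x)) := by
  classical
  let W : WellFounded (fun x y : V => l x < l y) := (measure l).wf
  let G : (x : V) → ((y : V) → l y < l x → β) → β := fun x ih =>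
    if hx : x ∈ K then base x else step x (ih (pp x) (h x hx))
  refine ⟨W.fix G, ?_, ?_⟩
  · intro x hx
    rw [W.fix_eq]
    simp [G, hx]
  · intro x hx
    rw [W.fix_eq]
    simp [G, hx]

theorem lev_ind {V : Type} (l : V → ℕ) (K : Set V) (pp : V → V)
    (h : ∀ x, x ∉ K → l (pp x) < l x) (P : V → Prop) (h0 : ∀ x ∈ K, P x)
    (h1 : ∀ x, x ∉ K → P (pp x) → P x) : ∀ x, P x := by
  intro x
  induction hn : l x using Nat.strong_induction_on generalizing x with
  | _ n ih =>
    by_cases hx : x ∈ K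
    · exact h0 x hx
    · exact h1 x hx (ih (l (pp x)) (hn ▸ h x hx) (pp x) rfl)

/-- The root and the path to the root. -/
theorem root_exists {V : Type} [Fintype V] (l : V → ℕ) (K : Set V) (pp : V → V)
    (h : ∀ x, x ∉ K → l (pp x) < l x) :
    ∃ (r : V → V) (q : V → V → ℚ), (∀ x, r x ∈ K) ∧ (∀ x ∈ K, r x = x) ∧
      (∀ x, x ∉ K → r x = r (pp x)) ∧ (∀ x, ∀ z ∈ K, q x z = 0) ∧
      ∀ (g : V → ℚ) (x : V), ∑ z, q x z * (g z - g (pp z)) = g x - g (r x) := by
  classical
  obtain ⟨r, hr0, hr1⟩ := rec_exists l K pp h (fun x => x) (fun _ y => y)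
  obtain ⟨q, hq0, hq1⟩ := rec_exists l K pp h (fun _ => (fun _ => (0 : ℚ)))
    (fun x f => fun z => (if z = x then 1 else 0) + f z)
  refine ⟨r, q, ?_, hr0, hr1, ?_, ?_⟩
  · refine lev_ind l K pp h _ ?_ ?_
    · intro x hx
      rw [hr0 x hx]
      exact hx
    · intro x hx ih
      rw [hr1 x hx]
      exact ih
  · refine lev_ind l K pp h _ ?_ ?_
    · intro x hx z _
      rw [hq0 x hx]
    · intro x hx ih z hz
      rw [hq1 x hx]
      have : z ≠ x := fun e => hx (e ▸ hz)
      simp [this, ih z hz]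
  · intro g
    refine lev_ind l K pp h _ ?_ ?_
    · intro x hx
      rw [hq0 x hx, hr0 x hx]
      simp
    · intro x hx ih
      rw [hq1 x hx, hr1 x hx]
      have : ∀ z, ((if z = x then (1 : ℚ) else 0) + q (pp x) z) * (g z - g (pp z)) =
          (if z = x then (g z - g (pp z)) else 0) + q (pp x) z * (g z - g (pp z)) := by
        intro z
        split_ifs <;> ring
      simp only [this]
      rw [Finset.sum_add_distrib, ih]
      simp

/-- The linear algebra part of the exchange. -/
theorem core (hLA : S_LA) (hSEL : S_SEL) {V : Type} [Fintype V] (B : SimpleGraph V)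
    (K : Set V) (pp : V → V) (l : V → ℕ) (t : V) (hB : B.Preconnected)
    (h : ∀ x, x ∉ K → l (pp x) < l x) :
    ∃ (a : V) (X : B.Walk t a) (Y : Finset V), a ∈ K ∧ X.IsPath ∧ (∀ z ∈ Y, z ∉ K) ∧
      (∀ x, (fromEdgeSet ((B.edgeSet \ {e | e ∈ X.edges}) ∪
        {e | ∃ z, z ∈ Y ∧ s(z, pp z) = e})).Reachable a x) ∧
      (∀ x, ∃ k ∈ K, (fromEdgeSet ({e | ∃ z, z ∉ K ∧ z ∉ Y ∧ s(z, pp z) = e} ∪
        {e | e ∈ X.edges})).Reachable x k) := by
  classical
  obtain ⟨r, q, hrK, hr0, hr1, hq0, hq⟩ := root_exists l K pp h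
  obtain ⟨a, X, haK, hX, -, hg⟩ := hSEL V B K r t (fun x _ => ⟨hrK x, hB t (r x)⟩)
  let E : Submodule ℚ (V → ℚ) :=
    { carrier := {g | g a = 0 ∧ ∀ x y, B.Adj x y → s(x, y) ∉ X.edges → g x = g y}
      add_mem' := by
        rintro g g' ⟨h1, h2⟩ ⟨h3, h4⟩
        refine ⟨by simp [h1, h3], fun x y hxy he => ?_⟩
        simp [h2 x y hxy he, h4 x y hxy he]
      zero_mem' := ⟨rfl, fun _ _ _ _ => rfl⟩
      smul_mem' := by
        rintro c g ⟨h1, h2⟩
        refine ⟨by simp [h1], fun x y hxy he => ?_⟩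
        simp [h2 x y hxy he] }
  let α : V → (E →ₗ[ℚ] ℚ) := fun z =>
    { toFun := fun g => if z ∈ K then 0 else g.1 z - g.1 (pp z)
      map_add' := by
        intro g g'
        split_ifs
        · simp
        · simp only [Submodule.coe_add, Pi.add_apply]
          ring
      map_smul' := by
        intro c g
        split_ifs
        · simp
        · simp only [Submodule.coe_smul, Pi.smul_apply, smul_eq_mul, RingHom.id_apply]
          ring }
  let β : V → (V → ℚ) := fun z b => if b ∈ X.support ∧ b ≠ a then q b z else 0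
  have hα : ∀ z (g : E), α z g = if z ∈ K then 0 else g.1 z - g.1 (pp z) := fun _ _ => rfl
  have hβ : ∀ z b, β z b = if b ∈ X.support ∧ b ≠ a then q b z else 0 := fun _ _ => rfl
  have hΦ : ∀ c : E, ∑ z, α z c • β z = 0 → c = 0 := by
    intro c hc
    have h1 : ∀ b ∈ X.support, b ≠ a → c.1 b = c.1 (r b) := by
      intro b hb hba
      have h2 := congrFun hc b
      rw [Finset.sum_apply] at h2
      have h3 : ∀ z, (α z c • β z) b = q b z * (c.1 z - c.1 (pp z)) := by
        intro z
        have hβ' : β z b = q b z := if_pos ⟨hb, hba⟩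
        rw [Pi.smul_apply, hα, hβ', smul_eq_mul]
        by_cases hz : z ∈ K
        · rw [if_pos hz, hq0 b z hz]
          ring
        · rw [if_neg hz]
          ring
      simp only [h3] at h2
      rw [hq] at h2
      have h4 : c.1 b - c.1 (r b) = 0 := h2
      linarith
    have h2 := hg c.1 c.2.1 (fun x y hxy _ he => c.2.2 x y hxy he) h1
    apply Subtype.ext
    funext x
    exact h2 x (hB t x)
  obtain ⟨Y, hY1, hY2⟩ := hLA V E (V → ℚ) α β hΦ
  have hYK : ∀ z ∈ Y, z ∉ K := by
    intro z hz hzK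
    have h1 : ∑ w, (Pi.single z (1 : ℚ) : V → ℚ) w • β w = 0 := by
      rw [Finset.sum_eq_single z]
      · funext b
        simp [hβ, hq0 b z hzK]
      · intro w _ hw
        simp [hw]
      · intro hh
        exact absurd (Finset.mem_univ z) hh
    have h2 := hY2 _ (fun w hw => by
      have : w ≠ z := fun e => hw (e ▸ hz)
      simp [this]) h1
    have h3 := congrFun h2 z
    simp at h3
  refine ⟨a, X, Y, haK, hX, hYK, ?_, ?_⟩
  · -- B' connected
    set B' := (fromEdgeSet ((B.edgeSet \ {e | e ∈ X.edges}) ∪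
        {e | ∃ z, z ∈ Y ∧ s(z, pp z) = e})) with hB'
    have hadj1 : ∀ x y, B.Adj x y → s(x, y) ∉ X.edges → B'.Adj x y := by
      intro x y hxy he
      rw [hB', fromEdgeSet_adj]
      exact ⟨Or.inl ⟨hxy, he⟩, hxy.ne⟩
    have hadj2 : ∀ z ∈ Y, B'.Adj z (pp z) := by
      intro z hz
      rw [hB', fromEdgeSet_adj]
      refine ⟨Or.inr ⟨z, hz, rfl⟩, fun e => ?_⟩
      have := h z (hYK z hz)
      rw [← e] at this
      exact lt_irrefl _ this
    let g : V → ℚ := fun x => if B'.Reachable a x then 0 else 1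
    have hgadj : ∀ x y, B'.Adj x y → g x = g y := by
      intro x y hxy
      have : B'.Reachable a x ↔ B'.Reachable a y :=
        ⟨fun hh => hh.trans hxy.reachable, fun hh => hh.trans hxy.symm.reachable⟩
      simp only [g, this]
    have hga : g a = 0 := by
      simp [g]
    have hgE : g ∈ E := ⟨hga, fun x y hxy he => hgadj x y (hadj1 x y hxy he)⟩
    have h1 := hY1 ⟨g, hgE⟩ (by
      intro z hz
      rw [hα, if_neg (hYK z hz)]
      have := hgadj z (pp z) (hadj2 z hz)
      simp only [this, sub_self])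
    intro x
    by_contra hx
    have h2 := congrFun (congrArg Subtype.val h1) x
    simp [g, hx] at h2
  · set A' := (fromEdgeSet ({e | ∃ z, z ∉ K ∧ z ∉ Y ∧ s(z, pp z) = e} ∪
        {e | e ∈ X.edges})) with hA'
    have hadj1 : ∀ z, z ∉ K → z ∉ Y → A'.Adj z (pp z) := by
      intro z hz hzY
      rw [hA', fromEdgeSet_adj]
      refine ⟨Or.inl ⟨z, hz, hzY, rfl⟩, fun e => ?_⟩
      have := h z hz
      rw [← e] at this
      exact lt_irrefl _ this
    have hadj2 : ∀ e ∈ X.edges, e ∈ A'.edgeSet := by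
      intro e he
      rw [hA', edgeSet_fromEdgeSet]
      refine ⟨Or.inr he, ?_⟩
      intro hd
      exact B.not_isDiag_of_mem_edgeSet (X.edges_subset_edgeSet he) hd
    have hsup : ∀ b ∈ X.support, A'.Reachable b a := by
      intro b hb
      have h5 : b ∈ (X.transfer A' hadj2).support := by
        rw [Walk.support_transfer]
        exact hb
      exact ((X.transfer A' hadj2).dropUntil b h5).reachable
    let g : V → ℚ := fun x => if (∃ k ∈ K, A'.Reachable x k) then 0 else 1
    have hgadj : ∀ x y, A'.Adj x y → g x = g y := by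
      intro x y hxy
      have : (∃ k ∈ K, A'.Reachable x k) ↔ (∃ k ∈ K, A'.Reachable y k) :=
        ⟨fun ⟨k, hk, hh⟩ => ⟨k, hk, hxy.symm.reachable.trans hh⟩,
          fun ⟨k, hk, hh⟩ => ⟨k, hk, hxy.reachable.trans hh⟩⟩
      simp only [g, this]
    have hgK : ∀ x ∈ K, g x = 0 := by
      intro x hx
      have : ∃ k ∈ K, A'.Reachable x k := ⟨x, hx, Reachable.refl x⟩
      simp only [g, this, if_true]
    let d : V → ℚ := fun z => if z ∈ Y then g z - g (pp z) else 0
    have hd : d = 0 := by
      refine hY2 d (fun z hz => by simp [d, hz]) ?_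
      funext b
      rw [Finset.sum_apply]
      by_cases hb : b ∈ X.support ∧ b ≠ a
      · have h3 : ∀ z, (d z • β z) b = q b z * (g z - g (pp z)) := by
          intro z
          have hβ' : β z b = q b z := if_pos hb
          rw [Pi.smul_apply, hβ', smul_eq_mul]
          by_cases hzK : z ∈ K
          · rw [hq0 b z hzK]
            ring
          · by_cases hzY : z ∈ Y
            · simp only [d, hzY, if_true]
              ring
            · simp only [d, hzY, if_false]
              rw [hgadj z (pp z) (hadj1 z hzK hzY)]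
              ring
        simp only [h3]
        rw [hq, hgK (r b) (hrK b)]
        have : ∃ k ∈ K, A'.Reachable b k := ⟨a, haK, hsup b hb.1⟩
        simp only [g, this, if_true]
        simp
      · have h3 : ∀ z, (d z • β z) b = 0 := by
          intro z
          have hβ' : β z b = 0 := if_neg hb
          rw [Pi.smul_apply, hβ', smul_zero]
        simp only [h3]
        simp
    have hgz : ∀ x, g x = 0 := by
      refine lev_ind l K pp h _ hgK ?_
      intro x hx ih
      by_cases hxY : x ∈ Y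
      · have := congrFun hd x
        simp only [d, hxY, if_true, Pi.zero_apply] at this
        linarith
      · rw [hgadj x (pp x) (hadj1 x hx hxY)]
        exact ih
    intro x
    by_contra hx
    have := hgz x
    simp [g, hx] at this

/-- The combinatorial part of the exchange: counting. -/
theorem core2 (hLA : S_LA) (hSEL : S_SEL) (hBFS : S_BFS) {V : Type} [Fintype V]
    (B : SimpleGraph V) (K : Set V) (pp : V → V) (l : V → ℕ) (t : V) (hB : B.Preconnected)
    (hac : B.IsAcyclic) (h : ∀ x, x ∉ K → l (pp x) < l x) :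
    ∃ (a : V) (X : B.Walk t a) (Y : Finset V) (pU : V → Option V) (lv : V → ℕ),
      a ∈ K ∧ X.IsPath ∧ (∀ z ∈ Y, z ∉ K) ∧ Y.card ≤ X.length ∧
      (fromEdgeSet ((B.edgeSet \ {e | e ∈ X.edges}) ∪
        {e | ∃ z, z ∈ Y ∧ s(z, pp z) = e})).IsTree ∧
      (∀ z, pU z = none ↔ z ∈ K) ∧
      (∀ z y, pU z = some y → (fromEdgeSet ({e | ∃ z, z ∉ K ∧ z ∉ Y ∧ s(z, pp z) = e} ∪
        {e | e ∈ X.edges})).Adj z y ∧ lv z = lv y + 1) ∧
      (∀ x y, (fromEdgeSet ({e | ∃ z, z ∉ K ∧ z ∉ Y ∧ s(z, pp z) = e} ∪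
        {e | e ∈ X.edges})).Adj x y → pU x = some y ∨ pU y = some x) ∧
      (∀ x ∈ K, lv x = 0) ∧ lv t ≤ X.length := by
  classical
  obtain ⟨a, X, Y, haK, hX, hYK, hconn, hreach⟩ := core hLA hSEL B K pp l t hB h
  set B' := (fromEdgeSet ((B.edgeSet \ {e | e ∈ X.edges}) ∪
        {e | ∃ z, z ∈ Y ∧ s(z, pp z) = e})) with hB'
  set A' := (fromEdgeSet ({e | ∃ z, z ∉ K ∧ z ∉ Y ∧ s(z, pp z) = e} ∪
        {e | e ∈ X.edges})) with hA'
  have hcB' : B'.Connected := by
    have : Nonempty V := ⟨a⟩
    exact ⟨fun x y => (hconn x).symm.trans (hconn y)⟩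
  have hcB : B.Connected := by
    have : Nonempty V := ⟨a⟩
    exact ⟨hB⟩
  have hBt : B.IsTree := ⟨hcB, hac⟩
  have hBcard : B.edgeSet.ncard + 1 = Fintype.card V := by
    have := (isTree_iff_connected_and_card.1 hBt).2
    rw [Nat.card_eq_fintype_card (α := V)] at this
    rw [← this]
    rfl
  -- edges of X
  have hXsub : {e | e ∈ X.edges} ⊆ B.edgeSet := fun e he => X.edges_subset_edgeSet he
  have hXcard : {e : Sym2 V | e ∈ X.edges}.ncard = X.length := by
    have h1 : {e : Sym2 V | e ∈ X.edges} = (X.edges.toFinset : Set (Sym2 V)) := by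
      ext e
      simp
    rw [h1, Set.ncard_coe_finset, List.toFinset_card_of_nodup
      (Walk.edges_nodup_of_support_nodup hX.support_nodup), Walk.length_edges]
  have hinj : ∀ z z', z ∉ K → z' ∉ K → s(z, pp z) = s(z', pp z') → z = z' := by
    intro z z' hz hz' e
    rcases Sym2.eq_iff.1 e with ⟨e1, -⟩ | ⟨e1, e2⟩
    · exact e1
    · exfalso
      have h1 := h z hz
      have h2 := h z' hz'
      rw [e2] at h1
      rw [← e1] at h2
      omega
  have hYimg : {e : Sym2 V | ∃ z, z ∈ Y ∧ s(z, pp z) = e}.ncard ≤ Y.card := by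
    have h1 : {e : Sym2 V | ∃ z, z ∈ Y ∧ s(z, pp z) = e} =
        ((Y.image fun z => s(z, pp z) : Finset (Sym2 V)) : Set (Sym2 V)) := by
      ext e
      simp
    rw [h1, Set.ncard_coe_finset]
    exact Finset.card_image_le
  have hB'le : B'.edgeSet.ncard ≤ (B.edgeSet.ncard - X.length) + Y.card := by
    calc B'.edgeSet.ncard ≤ ((B.edgeSet \ {e | e ∈ X.edges}) ∪
        {e | ∃ z, z ∈ Y ∧ s(z, pp z) = e}).ncard := by
          refine Set.ncard_le_ncard ?_ (Set.toFinite _)
          rw [hB', edgeSet_fromEdgeSet]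
          exact Set.diff_subset
      _ ≤ (B.edgeSet \ {e | e ∈ X.edges}).ncard +
          {e : Sym2 V | ∃ z, z ∈ Y ∧ s(z, pp z) = e}.ncard := Set.ncard_union_le _ _
      _ ≤ _ := by
          rw [Set.ncard_diff hXsub (Set.toFinite _), hXcard]
          omega
  have hXle : X.length ≤ B.edgeSet.ncard := by
    rw [← hXcard]
    exact Set.ncard_le_ncard hXsub (Set.toFinite _)
  have hB'ge : Fintype.card V ≤ B'.edgeSet.ncard + 1 := by
    have := hcB'.card_vert_le_card_edgeSet_add_one
    rw [Nat.card_eq_fintype_card (α := V)] at this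
    exact this
  have hLY : X.length ≤ Y.card := by omega
  have hKY : {z | z ∉ K ∧ z ∉ Y}.ncard + Y.card = Kᶜ.ncard := by
    have h1 : Kᶜ = {z | z ∉ K ∧ z ∉ Y} ∪ (Y : Set V) := by
      ext z
      simp only [Set.mem_compl_iff, Set.mem_union, Set.mem_setOf_eq, Finset.mem_coe]
      constructor
      · intro hz
        by_cases hzY : z ∈ Y
        · exact Or.inr hzY
        · exact Or.inl ⟨hz, hzY⟩
      · rintro (hz | hz)
        · exact hz.1
        · exact hYK z hz
    rw [h1, Set.ncard_union_eq _ (Set.toFinite _) (Set.toFinite _), Set.ncard_coe_finset]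
    rw [Set.disjoint_left]
    intro z hz hz'
    exact hz.2 hz'
  have hA'le : A'.edgeSet.ncard ≤ {z | z ∉ K ∧ z ∉ Y}.ncard + X.length := by
    calc A'.edgeSet.ncard ≤ ({e | ∃ z, z ∉ K ∧ z ∉ Y ∧ s(z, pp z) = e} ∪
        {e | e ∈ X.edges}).ncard := by
          refine Set.ncard_le_ncard ?_ (Set.toFinite _)
          rw [hA', edgeSet_fromEdgeSet]
          exact Set.diff_subset
      _ ≤ {e : Sym2 V | ∃ z, z ∉ K ∧ z ∉ Y ∧ s(z, pp z) = e}.ncard +
          {e : Sym2 V | e ∈ X.edges}.ncard := Set.ncard_union_le _ _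
      _ ≤ _ := by
          rw [hXcard]
          have h1 : {e : Sym2 V | ∃ z, z ∉ K ∧ z ∉ Y ∧ s(z, pp z) = e} =
              (fun z => s(z, pp z)) '' {z | z ∉ K ∧ z ∉ Y} := by
            ext e
            simp [and_assoc]
          rw [h1]
          have := Set.ncard_image_le (f := fun z => s(z, pp z)) (Set.toFinite {z | z ∉ K ∧ z ∉ Y})
          omega
  obtain ⟨pU, lv, hp1, hp2, hp3, hp4⟩ := hBFS V A' K hreach (by omega)
  have hge : Kᶜ.ncard ≤ A'.edgeSet.ncard := by
    have h1 : ((fun z => s(z, (pU z).getD z)) '' Kᶜ).ncard = Kᶜ.ncard := by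
      refine Set.ncard_image_of_injOn ?_
      intro z hz z' hz' e
      have hz1 : pU z ≠ none := fun h0 => hz ((hp1 z).1 h0)
      have hz2 : pU z' ≠ none := fun h0 => hz' ((hp1 z').1 h0)
      obtain ⟨y, hy⟩ := Option.ne_none_iff_exists'.1 hz1
      obtain ⟨y', hy'⟩ := Option.ne_none_iff_exists'.1 hz2
      simp only [hy, hy', Option.getD_some] at e
      rcases Sym2.eq_iff.1 e with ⟨e1, -⟩ | ⟨e1, e2⟩
      · exact e1
      · exfalso
        have h1 := (hp2 z y hy).2
        have h2 := (hp2 z' y' hy').2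
        rw [e2] at h1
        rw [← e1] at h2
        omega
    rw [← h1]
    refine Set.ncard_le_ncard ?_ (Set.toFinite _)
    rintro e ⟨z, hz, rfl⟩
    have hz1 : pU z ≠ none := fun h0 => hz ((hp1 z).1 h0)
    obtain ⟨y, hy⟩ := Option.ne_none_iff_exists'.1 hz1
    simp only [hy, Option.getD_some]
    exact (hp2 z y hy).1
  have hYL : Y.card ≤ X.length := by omega
  have hadj2 : ∀ e ∈ X.edges, e ∈ A'.edgeSet := by
    intro e he
    rw [hA', edgeSet_fromEdgeSet]
    refine ⟨Or.inr he, ?_⟩
    intro hd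
    exact B.not_isDiag_of_mem_edgeSet (X.edges_subset_edgeSet he) hd
  refine ⟨a, X, Y, pU, lv, haK, hX, hYK, hYL, ?_, hp1, hp2, hp3, ?_, ?_⟩
  · rw [isTree_iff_connected_and_card]
    refine ⟨hcB', ?_⟩
    rw [Nat.card_eq_fintype_card (α := V)]
    have : B'.edgeSet.ncard + 1 = Fintype.card V := by omega
    exact this
  · intro x hx
    have := hp4 x x hx Walk.nil
    simpa using this
  · have := hp4 t a haK (X.transfer A' hadj2)
    rwa [Walk.length_transfer] at this

theorem t_EXC (hLA : S_LA) (hBFS : S_BFS) (hSEL : S_SEL) : S_EXC := by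
  classical
  intro V _ B p l R t hB hac hl hd hR
  set K : Set V := {x | x ∈ R ∨ p x = none} with hK
  set pp : V → V := fun x => (p x).getD x with hpp
  have hsome : ∀ x, x ∉ K → p x = some (pp x) := by
    intro x hx
    have h1 : p x ≠ none := fun h0 => hx (Or.inr h0)
    obtain ⟨y, hy⟩ := Option.ne_none_iff_exists'.1 h1
    simp [hpp, hy]
  have h : ∀ x, x ∉ K → l (pp x) < l x := fun x hx => hl x (pp x) (hsome x hx)
  have hKup : ∀ x ∈ K, ∀ y, p x = some y → y ∈ K := by
    intro x hx y hxy
    rcases hx with hx | hx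
    · exact Or.inl (hR x hx y hxy)
    · rw [hx] at hxy
      exact absurd hxy (by simp)
  obtain ⟨a, X, Y, pU, lv, haK, hX, hYK, hYL, hT, hp1, hp2, hp3, hlv0, hlvt⟩ :=
    core2 hLA hSEL hBFS B K pp l t hB hac h
  set B' := (fromEdgeSet ((B.edgeSet \ {e | e ∈ X.edges}) ∪
        {e | ∃ z, z ∈ Y ∧ s(z, pp z) = e})) with hB'
  set A' := (fromEdgeSet ({e | ∃ z, z ∉ K ∧ z ∉ Y ∧ s(z, pp z) = e} ∪
        {e | e ∈ X.edges})) with hA'
  obtain ⟨M, hM⟩ : ∃ M, ∀ x, l x ≤ M :=
    ⟨Finset.univ.sup l, fun x => Finset.le_sup (f := l) (Finset.mem_univ x)⟩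
  have hinj : ∀ z z', z ∉ K → z' ∉ K → s(z, pp z) = s(z', pp z') → z = z' := by
    intro z z' hz hz' e
    rcases Sym2.eq_iff.1 e with ⟨e1, -⟩ | ⟨e1, e2⟩
    · exact e1
    · exfalso
      have h1 := h z hz
      have h2 := h z' hz'
      rw [e2] at h1
      rw [← e1] at h2
      omega
  -- the adjacencies
  have hB'adj : ∀ x y, B'.Adj x y ↔ (B.Adj x y ∧ s(x, y) ∉ X.edges) ∨
      ∃ z, z ∈ Y ∧ s(z, pp z) = s(x, y) := by
    intro x y
    rw [hB', fromEdgeSet_adj]
    constructor
    · rintro ⟨h1 | h1, -⟩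
      · exact Or.inl ⟨h1.1, h1.2⟩
      · exact Or.inr h1
    · rintro (h1 | ⟨z, hz, h1⟩)
      · exact ⟨Or.inl ⟨h1.1, h1.2⟩, h1.1.ne⟩
      · refine ⟨Or.inr ⟨z, hz, h1⟩, ?_⟩
        rintro rfl
        have h2 := h z (hYK z hz)
        rcases Sym2.eq_iff.1 h1 with ⟨e1, e2⟩ | ⟨e1, e2⟩ <;> rw [e2, ← e1] at h2 <;>
          exact lt_irrefl _ h2
  have hA'adj : ∀ x y, A'.Adj x y ↔ (∃ z, z ∉ K ∧ z ∉ Y ∧ s(z, pp z) = s(x, y)) ∨
      s(x, y) ∈ X.edges := by
    intro x y
    rw [hA', fromEdgeSet_adj]
    constructor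
    · rintro ⟨h1 | h1, -⟩
      · exact Or.inl h1
      · exact Or.inr h1
    · rintro (⟨z, hz, hzY, h1⟩ | h1)
      · refine ⟨Or.inl ⟨z, hz, hzY, h1⟩, ?_⟩
        rintro rfl
        have h2 := h z hz
        rcases Sym2.eq_iff.1 h1 with ⟨e1, e2⟩ | ⟨e1, e2⟩ <;> rw [e2, ← e1] at h2 <;>
          exact lt_irrefl _ h2
      · exact ⟨Or.inr h1, (B.mem_edgeSet.1 (X.edges_subset_edgeSet h1)).ne⟩
  have hXB : ∀ x y, s(x, y) ∈ X.edges → B.Adj x y :=
    fun x y h1 => B.mem_edgeSet.1 (X.edges_subset_edgeSet h1)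
  have hpz : ∀ z x y, z ∉ K → s(z, pp z) = s(x, y) → p x = some y ∨ p y = some x := by
    intro z x y hz h1
    have h2 := hsome z hz
    rcases Sym2.eq_iff.1 h1 with ⟨e1, e2⟩ | ⟨e1, e2⟩
    · left
      rw [← e1, h2, e2]
    · right
      rw [← e1, h2, e2]
  have hpB : ∀ z x y, z ∉ K → s(z, pp z) = s(x, y) → ¬ B.Adj x y := by
    intro z x y hz h1 h2
    rcases hpz z x y hz h1 with h3 | h3
    · exact hd x y h3 h2
    · exact hd y x h3 h2.symm
  set p' : V → Option V := fun x => if x ∈ K then p x else pU x with hp'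
  have hp'K : ∀ x ∈ K, p' x = p x := fun x hx => if_pos hx
  have hp'U : ∀ x, x ∉ K → p' x = pU x := fun x hx => if_neg hx
  have hpUK : ∀ x y, pU x = some y → x ∉ K := by
    intro x y hxy hx
    rw [(hp1 x).2 hx] at hxy
    exact absurd hxy (by simp)
  set up : V → V := fun x => (p' x).getD x with hup
  have hup1 : ∀ x y, p' x = some y → up x = y := by
    intro x y hxy
    simp [hup, hxy]
  have hiter : ∀ n x, lv x ≤ n → up^[n] x ∈ K := by
    intro n
    induction n with
    | zero =>
      intro x hx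
      by_contra hxK
      have hxK' : x ∉ K := hxK
      have h1 : pU x ≠ none := fun h0 => hxK' ((hp1 x).1 h0)
      obtain ⟨y, hy⟩ := Option.ne_none_iff_exists'.1 h1
      have := (hp2 x y hy).2
      omega
    | succ n ih =>
      intro x hx
      rw [Function.iterate_succ_apply]
      apply ih
      by_cases hxK : x ∈ K
      · have h1 : up x ∈ K := by
          cases h2 : p x with
          | none =>
            have : up x = x := by simp [hup, hp'K x hxK, h2]
            rw [this]
            exact hxK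
          | some y =>
            have : up x = y := by simp [hup, hp'K x hxK, h2]
            rw [this]
            exact hKup x hxK y h2
        rw [hlv0 _ h1]
        exact Nat.zero_le _
      · have h1 : pU x ≠ none := fun h0 => hxK ((hp1 x).1 h0)
        obtain ⟨y, hy⟩ := Option.ne_none_iff_exists'.1 h1
        have h3 := (hp2 x y hy).2
        have : up x = y := hup1 x y (by rw [hp'U x hxK, hy])
        rw [this]
        omega
  refine ⟨B', p', fun x => if x ∈ K then l x else M + 1 + lv x,
    R ∪ (fun n => up^[n] t) '' {n | n ≤ X.length}, Y.image (fun z => s(z, pp z)), a, X, hX,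
    hT.1.preconnected, hT.2, ?_, ?_, ?_, ?_, ?_, Set.subset_union_left,
    Or.inr ⟨0, Nat.zero_le _, rfl⟩, ?_, ?_, Finset.card_image_le.trans hYL⟩
  · -- levels
    intro x y hxy
    by_cases hx : x ∈ K
    · rw [hp'K x hx] at hxy
      have hy := hKup x hx y hxy
      simp only [hx, hy, if_true]
      exact hl x y hxy
    · rw [hp'U x hx] at hxy
      have h1 := (hp2 x y hxy).2
      by_cases hy : y ∈ K
      · simp only [hx, hy, if_true, if_false]
        have := hM y
        omega
      · simp only [hx, hy, if_false]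
        omega
  · intro x
    by_cases hx : x ∈ K
    · rw [hp'K x hx]
    · rw [hp'U x hx]
      constructor
      · intro h1
        exact absurd ((hp1 x).1 h1) hx
      · intro h1
        exact absurd (Or.inr h1) hx
  · -- edges
    intro x y
    have hUU : ∀ x y, p' x = some y → B.Adj x y ∨ p x = some y ∨ p y = some x := by
      intro x y hxy
      by_cases hx : x ∈ K
      · rw [hp'K x hx] at hxy
        exact Or.inr (Or.inl hxy)
      · rw [hp'U x hx] at hxy
        rcases (hA'adj x y).1 (hp2 x y hxy).1 with ⟨z, hz, -, h1⟩ | h1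
        · exact Or.inr (hpz z x y hz h1)
        · exact Or.inl (hXB x y h1)
    have hAU : ∀ x y, A'.Adj x y → p' x = some y ∨ p' y = some x := by
      intro x y hxy
      rcases hp3 x y hxy with h1 | h1
      · left
        rw [hp'U x (hpUK x y h1), h1]
      · right
        rw [hp'U y (hpUK y x h1), h1]
    have hPU : ∀ x y, p x = some y → B'.Adj x y ∨ p' x = some y ∨ p' y = some x := by
      intro x y hxy
      by_cases hx : x ∈ K
      · right
        left
        rw [hp'K x hx, hxy]
      · have hy : pp x = y := by simp [hpp, hxy]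
        by_cases hxY : x ∈ Y
        · left
          rw [hB'adj]
          exact Or.inr ⟨x, hxY, by rw [hy]⟩
        · right
          apply hAU
          rw [hA'adj]
          exact Or.inl ⟨x, hx, hxY, by rw [hy]⟩
    constructor
    · rintro (h1 | h1 | h1)
      · rcases (hB'adj x y).1 h1 with h2 | ⟨z, hz, h2⟩
        · exact Or.inl h2.1
        · exact Or.inr (hpz z x y (hYK z hz) h2)
      · exact hUU x y h1
      · rcases hUU y x h1 with h2 | h2 | h2
        · exact Or.inl h2.symm
        · exact Or.inr (Or.inr h2)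
        · exact Or.inr (Or.inl h2)
    · rintro (h1 | h1 | h1)
      · by_cases he : s(x, y) ∈ X.edges
        · right
          apply hAU
          rw [hA'adj]
          exact Or.inr he
        · left
          rw [hB'adj]
          exact Or.inl ⟨h1, he⟩
      · exact hPU x y h1
      · rcases hPU y x h1 with h2 | h2 | h2
        · exact Or.inl h2.symm
        · exact Or.inr (Or.inr h2)
        · exact Or.inr (Or.inl h2)
  · -- disjointness
    intro x y hxy hadj
    by_cases hx : x ∈ K
    · rw [hp'K x hx] at hxy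
      rcases (hB'adj x y).1 hadj with h2 | ⟨z, hz, h2⟩
      · exact hd x y hxy h2.1
      · have h3 := hYK z hz
        rcases Sym2.eq_iff.1 h2 with ⟨e1, -⟩ | ⟨e1, e2⟩
        · exact h3 (e1 ▸ hx)
        · have h4 := h z h3
          have h5 := hl x y hxy
          rw [e2, e1] at h4
          omega
    · rw [hp'U x hx] at hxy
      rcases (hA'adj x y).1 (hp2 x y hxy).1 with ⟨z, hz, hzY, h1⟩ | h1
      · rcases (hB'adj x y).1 hadj with h2 | ⟨z', hz', h2⟩
        · exact hpB z x y hz h1 h2.1
        · have := hinj z z' hz (hYK z' hz') (h1.trans h2.symm)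
          exact hzY (this ▸ hz')
      · rcases (hB'adj x y).1 hadj with h2 | ⟨z', hz', h2⟩
        · exact h2.2 h1
        · exact hpB z' x y (hYK z' hz') h2 (hXB x y h1)
  · -- upward closed
    intro x hx y hxy
    rcases hx with hx | ⟨n, hn, rfl⟩
    · left
      rw [hp'K x (Or.inl hx)] at hxy
      exact hR x hx y hxy
    · have hn' : n ≤ X.length := hn
      rcases Nat.lt_or_ge n X.length with h1 | h1
      · right
        refine ⟨n + 1, h1, ?_⟩
        simp only [Function.iterate_succ_apply']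
        exact hup1 _ y hxy
      · have hxK : up^[n] t ∈ K := hiter n t (hlvt.trans h1)
        simp only at hxy
        rw [hp'K _ hxK] at hxy
        rcases hxK with h2 | h2
        · exact Or.inl (hR _ h2 y hxy)
        · rw [h2] at hxy
          exact absurd hxy (by simp)
  · -- size
    refine (Set.ncard_union_le _ _).trans (Nat.add_le_add_left ?_ _)
    have h1 : {n | n ≤ X.length} = (Finset.range (X.length + 1) : Set ℕ) := by
      ext n
      simp [Nat.lt_succ_iff]
    rw [h1]
    refine (Set.ncard_image_le (Finset.finite_toSet _)).trans ?_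
    rw [Set.ncard_coe_finset, Finset.card_range]
  · intro x y hxy
    rcases (hB'adj x y).1 hxy with h1 | ⟨z, hz, h1⟩
    · exact Or.inl h1.1
    · right
      rw [← h1]
      exact Finset.mem_image.2 ⟨z, hz, rfl⟩

end Pool.Agent.Run7.h680.BD
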