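import Pool.Agent.Run7.h680.BD.Stm

/-! # The induction (MP_5f065d_co) -/

set_option autoImplicit false

namespace Pool.Agent.Run7.h680.BD

open SimpleGraph

theorem res_eq {V : Type} (C : Set V) (p : V → Option V) (x y : C) :
    res C p x = some y ↔ p x = some (y : V) := by
  classical
  unfold res
  rcases h : p x with _ | z
  · simp
  · by_cases hz : z ∈ C
    · simp only [Option.bind_some, dif_pos hz, Option.some.injEq]
      constructor
      · intro h1
        rw [← h1]
      · intro h1
        subst h1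
        rfl
    · simp only [Option.bind_some, dif_neg hz, Option.some.injEq]
      constructor
      · intro h1
        simp at h1
      · intro h1
        exact absurd (h1 ▸ y.2) hz

/-- The hypotheses of the induction. -/
structure Hyp {V : Type} (B : SimpleGraph V) (p p₃ : V → Option V) (l lev : V → ℕ)
    (Ex : Finset (Sym2 V)) (j q : ℕ) : Prop where
  conn : B.Preconnected
  acyc : B.IsAcyclic
  lvl : ∀ x y, p x = some y → l y < l x
  disj : ∀ x y, p x = some y → ¬ B.Adj x y
  h3 : ∀ x y, p₃ x = some y → lev y < lev x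
  cov : ∀ x y, B.Adj x y → p₃ x = some y ∨ p₃ y = some x ∨ s(x, y) ∈ Ex
  card : Ex.card ≤ q
  lt : ∀ x, lev x < j

theorem Con.mono {V : Type} {B : SimpleGraph V} {p : V → Option V} {N N' : ℕ} (h : Con B p N)
    (hN : N ≤ N') : Con B p N' := by
  obtain ⟨B', p', ρ, h⟩ := h
  exact ⟨B', p', ρ, { h with lt := fun x => (h.lt x).trans_le hN }⟩

theorem Con.trans {V : Type} {B B' : SimpleGraph V} {p p' : V → Option V} {N : ℕ}
    (h : Con B' p' N) (hc : B.Preconnected) (hc' : B'.Preconnected)
    (hn : ∀ x, p' x = none ↔ p x = none)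
    (he : ∀ x y, (B'.Adj x y ∨ p' x = some y ∨ p' y = some x) ↔
        (B.Adj x y ∨ p x = some y ∨ p y = some x)) : Con B p N := by
  obtain ⟨B'', p'', ρ, h⟩ := h
  exact ⟨B'', p'', ρ,
    { acyc := h.acyc
      reach := fun x y => ⟨fun _ => hc x y, fun _ => (h.reach x y).2 (hc' x y)⟩
      none := fun x => (h.none x).trans (hn x)
      edge := fun x y => (h.edge x y).trans (he x y)
      disj := h.disj
      two := h.two
      lt := h.lt
      r1 := h.r1
      r2 := h.r2 }⟩

theorem resolve (hEXC : S_EXC) (hPATH : S_PATH) (j : ℕ) : ∀ u q m : ℕ, ∃ q' m' : ℕ,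
    ∀ (V : Type) [Fintype V] (B : SimpleGraph V) (p p₃ : V → Option V) (l lev : V → ℕ)
      (Ex : Finset (Sym2 V)) (R : Set V) (K : Finset V), Hyp B p p₃ l lev Ex (j + 1) q →
      (∀ x ∈ R, ∀ y, p x = some y → y ∈ R) → R.ncard ≤ m → K.card ≤ u →
      ∃ (B' : SimpleGraph V) (p' : V → Option V) (l' : V → ℕ) (Ex' : Finset (Sym2 V)) (R' : Set V),
        Hyp B' p' p₃ l' lev Ex' (j + 1) q' ∧ (∀ x ∈ R', ∀ y, p' x = some y → y ∈ R') ∧
        R'.ncard ≤ m' ∧ (∀ x ∈ K, x ∈ R') ∧ R ⊆ R' ∧
        (∀ x, p' x = none ↔ p x = none) ∧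
        (∀ x y, (B'.Adj x y ∨ p' x = some y ∨ p' y = some x) ↔
          (B.Adj x y ∨ p x = some y ∨ p y = some x)) := by
  intro u
  induction u with
  | zero =>
    intro q m
    refine ⟨q, m, fun V _ B p p₃ l lev Ex R K h hR hm hK => ?_⟩
    have hK0 : K = ∅ := Finset.card_eq_zero.1 (Nat.le_zero.1 hK)
    exact ⟨B, p, l, Ex, R, h, hR, hm, by simp [hK0], subset_rfl, fun _ => Iff.rfl,
      fun _ _ => Iff.rfl⟩
  | succ u ih =>
    intro q m
    obtain ⟨q', m', hq⟩ := ih (q + ((2 * j + 1) * q + 2 * j)) (m + ((2 * j + 1) * q + 2 * j + 1))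
    refine ⟨q', m', fun V _ B p p₃ l lev Ex R K h hR hm hK => ?_⟩
    classical
    rcases K.eq_empty_or_nonempty with hK0 | ⟨t, ht⟩
    · exact hq V B p p₃ l lev Ex R K { h with card := h.card.trans (by omega) } hR (by omega)
        (by simp [hK0])
    · obtain ⟨B', p', l', R', EY, a, X, hX, hconn, hac, hlvl, hnone, hedge, hdisj, hR', hRR', htR',
        hcard, hcov, hEY⟩ := hEXC V B p l R t h.conn h.acyc h.lvl h.disj hR
      have hlen : X.length ≤ (2 * j + 1) * q + 2 * j := by
        have h1 := hPATH V B p₃ lev Ex j h.h3 (fun x => Nat.lt_succ_iff.1 (h.lt x)) h.cov _ _ X hX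
        have h2 : (2 * j + 1) * Ex.card ≤ (2 * j + 1) * q := Nat.mul_le_mul_left _ h.card
        omega
      have hyp : Hyp B' p' p₃ l' lev (Ex ∪ EY) (j + 1) (q + ((2 * j + 1) * q + 2 * j)) :=
        { conn := hconn
          acyc := hac
          lvl := hlvl
          disj := hdisj
          h3 := h.h3
          cov := by
            intro x y hxy
            rcases hcov x y hxy with h1 | h1
            · rcases h.cov x y h1 with h2 | h2 | h2
              · exact Or.inl h2
              · exact Or.inr (Or.inl h2)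
              · exact Or.inr (Or.inr (Finset.mem_union_left _ h2))
            · exact Or.inr (Or.inr (Finset.mem_union_right _ h1))
          card := (Finset.card_union_le _ _).trans (by have := h.card; omega)
          lt := h.lt }
      obtain ⟨B'', p'', l'', Ex'', R'', k1, k2, k3, k4, k5, k6, k7⟩ :=
        hq V B' p' p₃ l' lev (Ex ∪ EY) R' (K.erase t) hyp hR' (by omega)
          (by rw [Finset.card_erase_of_mem ht]; omega)
      refine ⟨B'', p'', l'', Ex'', R'', k1, k2, k3, ?_, hRR'.trans k5,
        fun x => (k6 x).trans (hnone x), fun x y => (k7 x y).trans (hedge x y)⟩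
      intro x hx
      by_cases hxt : x = t
      · rw [hxt]
        exact k5 htR'
      · exact k4 x (Finset.mem_erase.2 ⟨hxt, hx⟩)

theorem walk_comp {V : Type} (B : SimpleGraph V) (W : Set V) (c : V) {x y : V}
    (w : (Bout B W).Walk x y) (hx : x ∈ comp B W c) (hy : y ∈ comp B W c) :
    (B.induce (comp B W c)).Reachable ⟨x, hx⟩ ⟨y, hy⟩ := by
  induction w with
  | nil => exact Reachable.refl _
  | @cons x z y hxz w ih =>
    have hz : z ∈ comp B W c := Reachable.trans hx hxz.reachable
    have h1 : (B.induce (comp B W c)).Adj ⟨x, hx⟩ ⟨z, hz⟩ := hxz.1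
    exact h1.reachable.trans (ih hz hy)

theorem comp_conn {V : Type} (B : SimpleGraph V) (W : Set V) (c : V) :
    (B.induce (comp B W c)).Preconnected := by
  rintro ⟨x, hx⟩ ⟨y, hy⟩
  obtain ⟨w⟩ : (Bout B W).Reachable x y := Reachable.trans (Reachable.symm hx) hy
  exact walk_comp B W c w hx hy

theorem Hyp.sub {V : Type} [Fintype V] {B : SimpleGraph V} {p p₃ : V → Option V} {l lev : V → ℕ}
    {Ex : Finset (Sym2 V)} {j q : ℕ} (hac : B.IsAcyclic)
    (hlvl : ∀ x y, p x = some y → l y < l x) (hdisj : ∀ x y, p x = some y → ¬ B.Adj x y)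
    (h3 : ∀ x y, p₃ x = some y → lev y < lev x)
    (hcov : ∀ x y, B.Adj x y → p₃ x = some y ∨ p₃ y = some x ∨ s(x, y) ∈ Ex)
    (hcard : Ex.card ≤ q) (hlt : ∀ x, lev x < j) (W : Set V) (c : V) :
    ∃ Ex' : Finset (Sym2 (comp B W c)), Hyp (B.induce (comp B W c)) (res (comp B W c) p)
      (res (comp B W c) p₃) (fun x => l x) (fun x => lev x) Ex' j q := by
  classical
  have hinj : Function.Injective (Sym2.map (Subtype.val : comp B W c → V)) :=
    Sym2.map.injective Subtype.val_injective
  refine ⟨Ex.preimage (Sym2.map Subtype.val) hinj.injOn, ?_⟩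
  exact
    { conn := comp_conn B W c
      acyc := hac.induce _
      lvl := fun x y h => hlvl x y ((res_eq _ _ _ _).1 h)
      disj := fun x y h h' => hdisj x y ((res_eq _ _ _ _).1 h) h'
      h3 := fun x y h => h3 x y ((res_eq _ _ _ _).1 h)
      cov := by
        intro x y h
        rcases hcov x y h with h1 | h1 | h1
        · exact Or.inl ((res_eq _ _ _ _).2 h1)
        · exact Or.inr (Or.inl ((res_eq _ _ _ _).2 h1))
        · refine Or.inr (Or.inr ?_)
          rw [Finset.mem_preimage, Sym2.map_mk]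
          exact h1
      card := by
        refine le_trans ?_ hcard
        rw [← Finset.card_image_of_injective _ hinj]
        exact Finset.card_le_card (by
          intro e he
          rw [Finset.mem_image] at he
          obtain ⟨e', he', rfl⟩ := he
          exact Finset.mem_preimage.1 he')
      lt := fun x => hlt x }

theorem delR (hGLUE : S_GLUE) (j q N0 : ℕ)
    (hE : ∀ (V : Type) [Fintype V] (B : SimpleGraph V) (p p₃ : V → Option V) (l lev : V → ℕ)
      (Ex : Finset (Sym2 V)), Hyp B p p₃ l lev Ex j q → Con B p N0) :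
    ∀ m : ℕ, ∃ N : ℕ, ∀ (V : Type) [Fintype V] (B : SimpleGraph V) (p p₃ : V → Option V)
      (l lev : V → ℕ) (Ex : Finset (Sym2 V)) (R : Set V), Hyp B p p₃ l lev Ex (j + 1) q →
      (∀ x ∈ R, ∀ y, p x = some y → y ∈ R) → R.ncard ≤ m → (∀ x, lev x = 0 → x ∈ R) →
      Con B p N := by
  have hzero : ∀ (V : Type) [Fintype V] (B : SimpleGraph V) (p p₃ : V → Option V)
      (l lev : V → ℕ) (Ex : Finset (Sym2 V)), Hyp B p p₃ l lev Ex (j + 1) q →
      (∀ x, lev x ≠ 0) → Con B p N0 := by
    intro V _ B p p₃ l lev Ex h h0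
    refine hE V B p p₃ l (fun x => lev x - 1) Ex
      { conn := h.conn
        acyc := h.acyc
        lvl := h.lvl
        disj := h.disj
        h3 := ?_
        cov := h.cov
        card := h.card
        lt := ?_ }
    · intro x y hxy
      have h1 := h.h3 x y hxy
      have h2 := h0 y
      show lev y - 1 < lev x - 1
      omega
    · intro x
      have h1 := h.lt x
      have h2 := h0 x
      show lev x - 1 < j
      omega
  intro m
  induction m with
  | zero =>
    refine ⟨N0, fun V _ B p p₃ l lev Ex R h hR hm h0 => ?_⟩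
    have hR0 : R = ∅ := (Set.ncard_eq_zero (Set.toFinite R)).1 (Nat.le_zero.1 hm)
    refine hzero V B p p₃ l lev Ex h fun x hx => ?_
    have := h0 x hx
    rw [hR0] at this
    exact this
  | succ m ih =>
    obtain ⟨N, hN⟩ := ih
    refine ⟨max N0 N + 1, fun V _ B p p₃ l lev Ex R h hR hm h0 => ?_⟩
    rcases R.eq_empty_or_nonempty with hR0 | hRne
    · refine (hzero V B p p₃ l lev Ex h fun x hx => ?_).mono
        ((le_max_left N0 N).trans (Nat.le_succ _))
      have := h0 x hx
      rw [hR0] at this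
      exact this
    · obtain ⟨w, hw, hmin⟩ : ∃ w ∈ R, ∀ x ∈ R, l w ≤ l x :=
        Set.exists_min_image R l (Set.toFinite R) hRne
      have hpw : p w = none := by
        rcases hp : p w with _ | y
        · rfl
        · have h1 := hR w hw y hp
          have h2 := hmin y h1
          have h3 := h.lvl w y hp
          omega
      refine (hGLUE V B p {w} N h.acyc ?_ h.disj ?_ ?_ ?_).mono
        (Nat.succ_le_succ (le_max_right N0 N))
      · intro x y hxy hyx
        have h1 := h.lvl x y hxy
        have h2 := h.lvl y x hyx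
        omega
      · intro w' hw' y hy
        rw [Set.mem_singleton_iff] at hw'
        rw [hw', hpw] at hy
        exact absurd hy (by simp)
      · intro w₁ h1 w₂ h2 _
        rw [Set.mem_singleton_iff] at h1 h2
        rw [h1, h2]
      · intro c hc
        obtain ⟨Ex', hEx'⟩ := Hyp.sub h.acyc h.lvl h.disj h.h3 h.cov h.card h.lt {w} c
        have hwC : w ∉ comp B {w} c := by
          intro hwc
          obtain ⟨v⟩ : (Bout B {w}).Reachable c w := hwc
          have hne : w ≠ c := fun h => hc (by rw [h]; exact Set.mem_singleton _)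
          cases v.reverse with
          | nil => exact hne rfl
          | cons hadj _ => exact hadj.2.1 (Set.mem_singleton _)
        let _ : Fintype (comp B {w} c) := Fintype.ofFinite _
        refine hN (comp B {w} c) _ _ _ _ _ Ex' {x | (x : V) ∈ R} hEx' ?_ ?_ ?_
        · intro x hx y hxy
          exact hR x hx y ((res_eq _ _ _ _).1 hxy)
        · have h1 : (Subtype.val '' {x : comp B {w} c | (x : V) ∈ R}).ncard ≤ (R \ {w}).ncard := by
            refine Set.ncard_le_ncard ?_ (Set.toFinite _)
            rintro _ ⟨x, hx, rfl⟩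
            refine ⟨hx, fun hxw => hwC ?_⟩
            rw [Set.mem_singleton_iff] at hxw
            have hx2 := x.2
            rw [hxw] at hx2
            exact hx2
          rw [Set.ncard_image_of_injective _ Subtype.val_injective,
            Set.ncard_sdiff_singleton_of_mem hw] at h1
          omega
        · intro x hx
          exact h0 x hx

theorem main_E (hEXC : S_EXC) (hPATH : S_PATH) (hCNT : S_CNT) (hGLUE : S_GLUE) :
    ∀ j q : ℕ, ∃ N : ℕ, ∀ (V : Type) [Fintype V] (B : SimpleGraph V) (p p₃ : V → Option V)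
      (l lev : V → ℕ) (Ex : Finset (Sym2 V)), Hyp B p p₃ l lev Ex j q → Con B p N := by
  intro j
  induction j with
  | zero =>
    intro q
    refine ⟨0, fun V _ B p p₃ l lev Ex h => ⟨B, p, fun _ => 0, ?_⟩⟩
    have hV : ∀ x : V, False := fun x => absurd (h.lt x) (Nat.not_lt_zero _)
    exact
      { acyc := h.acyc
        reach := fun x => (hV x).elim
        none := fun x => (hV x).elim
        edge := fun x => (hV x).elim
        disj := fun x => (hV x).elim
        two := fun x => (hV x).elim
        lt := fun x => (hV x).elim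
        r1 := fun x => (hV x).elim
        r2 := fun x => (hV x).elim }
  | succ j ih =>
    intro q
    obtain ⟨q', m', hres⟩ := resolve hEXC hPATH j (q + 1) q 0
    obtain ⟨N0, hN0⟩ := ih q'
    obtain ⟨N, hN⟩ := delR hGLUE j q' N0 hN0 m'
    refine ⟨N, fun V _ B p p₃ l lev Ex h => ?_⟩
    classical
    have hK : (Finset.univ.filter fun x => lev x = 0).card ≤ q + 1 := by
      have h1 := hCNT V B p₃ Ex h.conn h.cov
      have h2 : (Finset.univ.filter fun x => lev x = 0).card ≤ {x | p₃ x = none}.ncard := by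
        rw [← Set.ncard_coe_finset]
        refine Set.ncard_le_ncard ?_ (Set.toFinite _)
        intro x hx
        rw [Finset.mem_coe, Finset.mem_filter] at hx
        show p₃ x = none
        rcases hp : p₃ x with _ | y
        · rfl
        · have := h.h3 x y hp
          omega
      have h3 := h.card
      omega
    obtain ⟨B', p', l', Ex', R', k1, k2, k3, k4, -, k6, k7⟩ :=
      hres V B p p₃ l lev Ex ∅ _ h (by simp) (by simp) hK
    have h1 := hN V B' p' p₃ l' lev Ex' R' k1 k2 k3 fun x hx => k4 x (by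
      rw [Finset.mem_filter]
      exact ⟨Finset.mem_univ _, hx⟩)
    exact h1.trans h.conn k1.conn k6 k7

/-- The statement of S09049 from the pieces. -/
theorem final (hEXC : S_EXC) (hPATH : S_PATH) (hCNT : S_CNT) (hGLUE : S_GLUE) (hPOT : S_POT)
    (hDEC : S_DEC) :
    ∀ d : ℕ, 1 ≤ d → ∃ f : ℕ, ∀ (V : Type) [Fintype V] (G F₁ F₂ : SimpleGraph V),
      F₁.IsAcyclic → F₂.IsAcyclic →
      (∀ u v : V, F₂.Reachable u v → F₂.dist u v ≤ d) →
      G = F₁ ⊔ F₂ →
      ∃ H₁ H₂ : SimpleGraph V, H₁ ⊔ H₂ = G ∧ Disjoint H₁ H₂ ∧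
        H₁.IsAcyclic ∧ H₂.IsAcyclic ∧
        (∀ u v : V, H₁.Reachable u v → H₁.dist u v ≤ f) ∧
        (∀ u v : V, H₂.Reachable u v → H₂.dist u v ≤ f) := by
  intro d _
  obtain ⟨N, hN⟩ := main_E hEXC hPATH hCNT hGLUE (d + 1) 0
  refine ⟨2 * 18 ^ (N + 1), fun V _ G F₁ F₂ hF₁ hF₂ hd hG => ?_⟩
  subst hG
  classical
  obtain ⟨p, l, h1, -, h1'⟩ := Pool.Agent.TH87.BD.exists_rooting (F₁ \ F₂) (hF₁.anti sdiff_le)
  obtain ⟨p₃, lev, h3, -, h3', hlev⟩ := Pool.Agent.TH87.BD.exists_rooting_at F₂ hF₂
    (fun x => (F₂.connectedComponentMk x).out)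
    (fun x => (ConnectedComponent.exact (F₂.connectedComponentMk x).out_eq).symm)
    (fun x y h => by
      show (F₂.connectedComponentMk x).out = (F₂.connectedComponentMk y).out
      rw [ConnectedComponent.sound h])
  have hdisj : ∀ x y, p x = some y → ¬ F₂.Adj x y := fun x y h h' => by
    have h2 := (h1 x y h).1
    rw [SimpleGraph.sdiff_adj] at h2
    exact h2.2 h'
  have hlt : ∀ x, lev x < d + 1 := fun x => by
    rw [hlev x]
    exact Nat.lt_succ_iff.2 (hd _ _
      (ConnectedComponent.exact (F₂.connectedComponentMk x).out_eq).symm)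
  have hcon : Con F₂ p (N + 1) := by
    refine hGLUE V F₂ p ∅ N hF₂ ?_ hdisj (by simp) (by simp) ?_
    · intro x y hxy hyx
      have h4 := (h1 x y hxy).2
      have h5 := (h1 y x hyx).2
      omega
    · intro c _
      obtain ⟨Ex', hEx'⟩ := Hyp.sub (B := F₂) (p := p) (p₃ := p₃) (l := l) (lev := lev)
        (Ex := ∅) (j := d + 1) (q := 0) hF₂ (fun x y h => by have := (h1 x y h).2; omega) hdisj
        (fun x y h => by have := (h3 x y h).2; omega)
        (fun x y h => by
          rcases h3' x y h with h4 | h4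
          · exact Or.inl h4
          · exact Or.inr (Or.inl h4)) (by simp) hlt ∅ c
      let _ : Fintype (comp F₂ ∅ c) := Fintype.ofFinite _
      exact hN _ _ _ _ _ _ Ex' hEx'
  obtain ⟨B', p', ρ, ok⟩ := hcon
  obtain ⟨p₂, l₂, h2, -, h2'⟩ := Pool.Agent.TH87.BD.exists_rooting B' ok.acyc
  obtain ⟨s, e, he, hs1, hs2⟩ := hPOT (N + 1) V B' p' p₂ l₂ ρ h2 h2' ok.lt ok.r1 ok.r2
  obtain ⟨H₁, H₂, hH, hdis, ha1, ha2, hd1, hd2⟩ := hDEC V B' p' p₂ l₂ s e _ h2 h2' ok.disj ok.two
    he hs1 hs2
  refine ⟨H₁, H₂, ?_, hdis, ha1, ha2, hd1, hd2⟩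
  ext x y
  rw [hH, ok.edge, SimpleGraph.sup_adj]
  constructor
  · rintro (h | h | h)
    · exact Or.inr h
    · have h4 := (h1 x y h).1
      rw [SimpleGraph.sdiff_adj] at h4
      exact Or.inl h4.1
    · have h4 := (h1 y x h).1
      rw [SimpleGraph.sdiff_adj] at h4
      exact Or.inl h4.1.symm
  · intro h
    by_cases h4 : F₂.Adj x y
    · exact Or.inl h4
    · rcases h with h | h
      · have h5 : (F₁ \ F₂).Adj x y := by
          rw [SimpleGraph.sdiff_adj]
          exact ⟨h, h4⟩
        rcases h1' x y h5 with h6 | h6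
        · exact Or.inr (Or.inl h6)
        · exact Or.inr (Or.inr h6)
      · exact absurd h h4

end Pool.Agent.Run7.h680.BD
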